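import Pool.Agent.X14.Bala

set_option autoImplicit false

namespace Pool.Agent.Results.MP_558e64_nt.BalaModP5

open Finset Pool.Agent.H434R2 Pool.Agent.H434R2.PO Pool.Agent.X14 Pool.Agent.X14.Bala

/-- Bala's sequence: `a(0) = 1` and
`a(n) = ∑_{j=0}^{n-1} C(n,j) C(n-1,j) C(n+j-1,j)^2` for `n ≥ 1`. -/
def a (n : ℕ) : ℤ :=
  if n = 0 then 1 else ∑ j ∈ range n, (n.choose j : ℤ) * ((n - 1).choose j : ℤ) * ((n + j - 1).choose j : ℤ) ^ 2

/-- **Bala's conjecture**: `a(p) ≡ 1 (mod p^5)` for every prime `p ≥ 5`. -/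
theorem result : ∀ p : ℕ, p.Prime → 5 ≤ p → (p : ℤ) ^ 5 ∣ a p - 1 := by
  intro p hpp h5
  have hp : Fact p.Prime := ⟨hpp⟩
  apply dvd_of_PO
  have ha : (a p : ℚ) = 1 - ∑ j ∈ range (p - 1), xx p j ^ 3 * (1 - xx p j) * WW p j :=
    a_eq p (by omega)
  have hx : ∀ j ∈ range (p - 1), PO p 1 (xx p j) := by
    intro j hj
    unfold xx
    rw [div_eq_mul_inv]
    exact p_PO.mul0' (inv_succ (mem_range.1 hj))
  have hW : ∀ j ∈ range (p - 1), PO p 2 (WW p j - 1) := by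
    intro j hj
    unfold WW
    apply prod_one
    intro i hi
    have hi' : i ∈ range (p - 1) := by
      rw [mem_range] at *; omega
    have h1 := (hx i hi').pow 2
    have e : (1 - xx p i ^ 2) ^ 2 - 1 = xx p i ^ 2 * (xx p i ^ 2 - 2) := by ring
    rw [e]
    refine h1.mul0' ((h1.mono (by omega)).sub ?_)
    exact_mod_cast of_nat (p := p) 2
  have key : PO p 5 (∑ j ∈ range (p - 1), xx p j ^ 3 * (1 - xx p j)) := by
    have e : ∑ j ∈ range (p - 1), xx p j ^ 3 * (1 - xx p j) =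
        (p : ℚ) ^ 3 * (∑ j ∈ range (p - 1), 1 / ((j : ℚ) + 1) ^ 3 -
          p * ∑ j ∈ range (p - 1), 1 / ((j : ℚ) + 1) ^ 4) := by
      rw [mul_sub, mul_sum, mul_sum, mul_sum, ← sum_sub_distrib]
      apply sum_congr rfl
      intro j _
      unfold xx
      have hj0 : ((j : ℚ) + 1) ≠ 0 := by positivity
      field_simp
    rw [e]
    refine (ppow (p := p) 3).mul (k := 2) ?_
    have h3 := inv_pow_sum_odd (p := p) (m := 3) (by decide)
    have h4 : PO p 2 (5 * (p : ℚ) * ∑ j ∈ range (p - 1), 1 / ((j : ℚ) + 1) ^ 4) := by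
      have hint : PO p 0 (∑ j ∈ range (p - 1), 1 / ((j : ℚ) + 1) ^ 4) :=
        PO.sum _ _ (fun j hj => inv_succ_pow (mem_range.1 hj) 4)
      rcases eq_or_lt_of_le h5 with h | h
      · have e5 : (5 : ℚ) * (p : ℚ) = (p : ℚ) ^ 2 := by rw [← h]; norm_num
        rw [e5]
        exact (ppow (p := p) 2).mul0' hint
      · have hnd : ¬ p - 1 ∣ 4 := by
          intro hd
          have h6 : p - 1 ≤ 4 := Nat.le_of_dvd (by norm_num) hd
          omega
        have h7 := inv_pow_sum (p := p) hnd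
        rw [mul_assoc]
        refine PO.mul0 (by exact_mod_cast of_nat (p := p) 5) (p_PO.mul (k := 1) h7)
    have h2 : p ≠ 2 := by omega
    have e2 : ∑ j ∈ range (p - 1), 1 / ((j : ℚ) + 1) ^ 3 - p * ∑ j ∈ range (p - 1), 1 / ((j : ℚ) + 1) ^ 4 =
        (1 / 2) * ((2 * ∑ b ∈ range (p - 1), 1 / ((b : ℚ) + 1) ^ 3 +
          ((3 : ℕ) : ℚ) * p * ∑ b ∈ range (p - 1), 1 / ((b : ℚ) + 1) ^ (3 + 1)) -
          5 * (p : ℚ) * ∑ j ∈ range (p - 1), 1 / ((j : ℚ) + 1) ^ 4) := by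
      push_cast
      ring
    rw [e2]
    exact PO.mul0 (half h2) (h3.sub h4)
  have e : ((a p - 1 : ℤ) : ℚ) = -(∑ j ∈ range (p - 1), xx p j ^ 3 * (1 - xx p j) * (WW p j - 1) +
      ∑ j ∈ range (p - 1), xx p j ^ 3 * (1 - xx p j)) := by
    push_cast
    rw [ha, ← sum_add_distrib]
    have : ∑ j ∈ range (p - 1), xx p j ^ 3 * (1 - xx p j) * WW p j =
        ∑ j ∈ range (p - 1), (xx p j ^ 3 * (1 - xx p j) * (WW p j - 1) + xx p j ^ 3 * (1 - xx p j)) := by
      apply sum_congr rfl; intro j _; ring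
    rw [this]; ring
  rw [e]
  refine (PO.add (PO.sum _ _ ?_) key).neg
  intro j hj
  have h1 := (hx j hj).pow 3
  have h2 : PO p 0 (1 - xx p j) := PO.one.sub ((hx j hj).mono (by omega))
  exact (h1.mul0' h2).mul (k := 2) (hW j hj)

end Pool.Agent.Results.MP_558e64_nt.BalaModP5
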